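import Pool.Agent.helper35.MR.SpecA

set_option autoImplicit false

open Finset

namespace Pool.Agent.helper35.MR

open Pool.Agent.RRank

theorem BLK (hC : CUB_stmt) : BLK_stmt := by
  intro d m n hd
  let C := (Fin d → Fin n) → (Fin d → Bool) → Fin m
  let s := Fintype.card C
  refine ⟨d * s ^ d + 1, ?_⟩
  intro K _ val Q T hr
  classical
  set T' : ((α : Fin d) → Q α) → K := fun x => val (T x) with hT'
  have hno : ∀ r, r < d * s ^ d + 1 → ¬ SumOf (slices d) T' r := fun r h =>
    not_sumOf_of_le_rank hr h
  have key : ∀ c : (α : Fin d) → Q α → C, ∃ x y : (α : Fin d) → Q α,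
      (∀ α, c α (x α) = c α (y α)) ∧ alt T' x y ≠ 0 := by
    intro c
    by_contra hcon
    push Not at hcon
    refine hno _ (Nat.lt_succ_self _) (hC d s hd K Q T'
      (fun α u => Fintype.equivFin C (c α u)) fun x y h => hcon x y fun α => ?_)
    exact (Fintype.equivFin C).injective (h α)
  have step : ∀ t, t ≤ n → ∃ f : (α : Fin d) → ℕ → Bool → Q α,
      (∀ t' < t, alt T' (fun α => f α t' false) (fun α => f α t' true) ≠ 0) ∧
      ∀ (i : Fin d → ℕ) (e e' : Fin d → Bool) (α : Fin d), i α < t →
        (∀ β, β ≠ α → i β < i α) → (∀ β, β ≠ α → e β = e' β) →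
        T (fun β => f β (i β) (e β)) = T (fun β => f β (i β) (e' β)) := by
    intro t
    induction t with
    | zero =>
      intro _
      have hne : Nonempty ((α : Fin d) → Q α) := by
        by_contra hemp
        exact hno 0 (by omega) ⟨fun i => i.elim0, fun i => i.elim0, fun x => (hemp ⟨x⟩).elim⟩
      obtain ⟨x₀⟩ := hne
      exact ⟨fun α _ _ => x₀ α, fun t' h => absurd h (by omega), fun i e e' α h => absurd h (by omega)⟩
    | succ t ih =>
      intro htn
      obtain ⟨f, hf1, hf2⟩ := ih (by omega)
      obtain ⟨x, y, hxy, halt⟩ := key fun α u i e =>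
        T (fun β => if h : β = α then h ▸ u else f β (i β) (e β))
      refine ⟨fun α t' ε => if t' = t then (if ε then y α else x α) else f α t' ε, ?_, ?_⟩
      · intro t' ht'
        by_cases h : t' = t
        · subst h
          simpa using halt
        · simp only [if_neg h]
          exact hf1 t' (by omega)
      · intro i e e' α hi hmax hee
        by_cases h : i α = t
        · have hlt : ∀ β, β ≠ α → i β < t := fun β hβ => h ▸ hmax β hβ
          have hne : ∀ β, β ≠ α → i β ≠ t := fun β hβ => (hlt β hβ).ne
          let i' : Fin d → Fin n := fun β => if hβ : i β < t then ⟨i β, by omega⟩ else ⟨t, by omega⟩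
          have hi' : ∀ β, β ≠ α → (i' β : ℕ) = i β := by
            intro β hβ
            simp only [i', dif_pos (hlt β hβ)]
          have hgen : ∀ e'' : Fin d → Bool, (∀ β, β ≠ α → e β = e'' β) →
              T (fun β => if i β = t then (if e'' β then y β else x β) else f β (i β) (e'' β)) =
              T (fun β => if h : β = α then h ▸ (if e'' α then y α else x α)
                else f β (i' β) (e β)) := by
            intro e'' he
            congr 1
            funext β
            by_cases hβ : β = α
            · subst hβ
              rw [if_pos h, dif_pos rfl]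
            · rw [if_neg (hne β hβ), dif_neg hβ, hi' β hβ, he β hβ]
          have hcol := congrFun (congrFun (hxy α) i') e
          rw [hgen e (fun _ _ => rfl), hgen e' hee]
          have hval : ∀ b : Bool, T (fun β => if h : β = α then h ▸ (if b then y α else x α)
              else f β (i' β) (e β)) = T (fun β => if h : β = α then h ▸ (x α)
              else f β (i' β) (e β)) := by
            intro b
            cases b
            · simp
            · simpa using hcol.symm
          rw [hval, hval]
        · have hlt : ∀ β, i β ≠ t := by
            intro β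
            by_cases hβ : β = α
            · rw [hβ]; exact h
            · have := hmax β hβ
              omega
          simp only [if_neg (hlt _)]
          exact hf2 i e e' α (by omega) hmax hee
  obtain ⟨f, hf1, hf2⟩ := step n le_rfl
  refine ⟨fun α t ε => f α t ε, fun t => hf1 t t.2, ?_⟩
  intro i e e' α hi he
  exact hf2 (fun β => (i β : ℕ)) e e' α (i α).2 (fun β hβ => hi β hβ) he

end Pool.Agent.helper35.MR
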