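import Pool.Agent.helper35.MR.SpecB

/-!
# mr:WA, strict words in both regions
-/

set_option autoImplicit false

open Finset

namespace Pool.Agent.helper35.MR

open Pool.Agent.RRank

theorem WA_sel (hDT : DT_stmt) (hPOS : POS_stmt) (K : Type) [Field K] (l : ℕ) (hl : 1 ≤ l) (c : K) :
    ∃ (x y : Fin l → Fin (2 * l)) (a : Fin l → Fin l → Prop) (_ : ∀ i j, Decidable (a i j)),
      (∀ i j, cmp (x i) (y j) = if a i j then Ordering.lt else Ordering.gt) ∧
      (Matrix.of (fun i j : Fin l => (if a i j then (1 : K) else 0) - c)).det ≠ 0 := by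
  obtain ⟨h1, h2, -⟩ := hDT K l hl
  by_cases hc : c = 1
  · refine ⟨pB, pA, fun i j => i < j, fun i j => inferInstance, fun i j => (hPOS l i j).2.1, ?_⟩
    apply h2
    rw [hc]
    exact one_ne_zero
  · exact ⟨pA, pB, fun i j => i ≤ j, fun i j => inferInstance, fun i j => (hPOS l i j).1, h1 c hc⟩

theorem WA (hPF : PF_stmt) (hDT : DT_stmt) (hPOS : POS_stmt) : WA_stmt := by
  intro K _ F hD l hl
  obtain ⟨D, hDd⟩ : ∃ D, D = F .lt .lt - F .lt .gt - F .gt .lt + F .gt .gt := ⟨_, rfl⟩
  rw [← hDd] at hD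
  obtain ⟨x, y, a, _, hxy, ha⟩ := WA_sel hDT hPOS K l (by omega) (-((F .gt .lt - F .gt .gt) / D))
  obtain ⟨z, w, b, _, hzw, hb⟩ := WA_sel hDT hPOS K l (by omega) (-((F .lt .gt - F .gt .gt) / D))
  refine ⟨x, y, z, w, ?_⟩
  have hX : (Matrix.of (fun i j : Fin l => D * ((if a i j then (1 : K) else 0) -
      (-((F .gt .lt - F .gt .gt) / D))))).det ≠ 0 := by
    have : (Matrix.of (fun i j : Fin l => D * ((if a i j then (1 : K) else 0) -
      (-((F .gt .lt - F .gt .gt) / D))))) = D • (Matrix.of (fun i j : Fin l =>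
        (if a i j then (1 : K) else 0) - (-((F .gt .lt - F .gt .gt) / D)))) := by
      ext i j
      simp
    rw [this, Matrix.det_smul]
    exact mul_ne_zero (pow_ne_zero _ hD) ha
  have h := hPF K l hl _ _ (F .gt .gt - (F .lt .gt - F .gt .gt) * (F .gt .lt - F .gt .gt) / D) hX hb
  have e : (fun i j k m : Fin l => F (cmp (x i) (y j)) (cmp (z k) (w m))) =
      fun i j k m : Fin l => D * ((if a i j then (1 : K) else 0) -
        (-((F .gt .lt - F .gt .gt) / D))) * ((if b k m then (1 : K) else 0) -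
        (-((F .lt .gt - F .gt .gt) / D))) +
        (F .gt .gt - (F .lt .gt - F .gt .gt) * (F .gt .lt - F .gt .gt) / D) := by
    funext i j k m
    rw [hxy, hzw]
    by_cases h1 : a i j <;> by_cases h2 : b k m
    · rw [if_pos h1, if_pos h2, if_pos h1, if_pos h2]
      field_simp
      rw [hDd]
      ring
    · rw [if_pos h1, if_neg h2, if_pos h1, if_neg h2]
      field_simp
      ring
    · rw [if_neg h1, if_pos h2, if_neg h1, if_pos h2]
      field_simp
      ring
    · rw [if_neg h1, if_neg h2, if_neg h1, if_neg h2]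
      field_simp
      ring
  rw [e]
  exact h

end Pool.Agent.helper35.MR
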