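import Pool.Agent.helper35.MR.SpecA

set_option autoImplicit false

open Finset

namespace Pool.Agent.helper35.MR

open Pool.Agent.RRank

theorem ALL3_one {R : Set (IndexPartition 3)} {P : IndexPartition 3} (hP : P ∈ R)
    (h : P.parts.card < 2) {K : Type} [Field K] {Q : Fin 3 → Type} (T : ((α : Fin 3) → Q α) → K) :
    rank R T ≤ 1 := by
  have hsup : P.parts.sup id = univ := P.sup_parts
  have hcard : P.parts.card = 1 := by
    rcases Nat.lt_or_ge P.parts.card 1 with h0 | h0
    · exfalso
      have h1 : P.parts = ∅ := Finset.card_eq_zero.1 (by omega)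
      rw [h1, Finset.sup_empty] at hsup
      have h2 : (0 : Fin 3) ∈ (⊥ : Finset (Fin 3)) := by
        rw [hsup]; exact Finset.mem_univ _
      simp at h2
    · omega
  obtain ⟨I, hI⟩ := Finset.card_eq_one.1 hcard
  rw [hI, Finset.sup_singleton] at hsup
  have hIu : I = univ := hsup
  subst hIu
  have h1 : RankLEOne R T := by
    refine rankLEOne_iff.2 ⟨P, hP, fun _ => T, ?_, ?_⟩
    · intro J hJ
      rw [hI, Finset.mem_singleton] at hJ
      subst hJ
      intro x y hxy
      have hx : x = y := funext fun α => hxy α (Finset.mem_coe.2 (Finset.mem_univ α))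
      rw [hx]
    · intro x
      rw [hI, Finset.prod_singleton]
  exact rank_le_of_sumOf (SumOf.one h1)

theorem ALL3_univ : slicesOf (univ : Finset (Fin 3)) = slices 3 := by
  ext P
  constructor
  · rintro ⟨h1, α, -, h2⟩
    exact ⟨h1, α, h2⟩
  · rintro ⟨h1, α, h2⟩
    exact ⟨h1, α, Finset.mem_univ _, h2⟩

theorem ALL3 (h0 : R0_stmt) (h1 : R1_stmt) (h2 : R2_stmt) (h3 : R3_stmt) (hS : SL3_stmt) :
    ALL3_stmt := by
  obtain ⟨G, hG⟩ := hS
  refine ⟨fun m l => 2 + G m l + l + (2 * l ^ 2 + 1), ?_⟩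
  intro R hR K _ Q _ T m l hm hr
  have hle : ∀ k : ℕ, k ≤ 2 + G m l + l + (2 * l ^ 2 + 1) → (k : ℕ∞) ≤ rank R T := by
    intro k hk
    exact le_trans (by exact_mod_cast hk) hr
  by_cases hA : ∃ P ∈ R, P.parts.card < 2
  · exfalso
    obtain ⟨P, hP, hc⟩ := hA
    have h4 := (hle 2 (by omega)).trans (ALL3_one hP hc T)
    have h5 : (2 : ℕ) ≤ 1 := by exact_mod_cast h4
    omega
  · push Not at hA
    rcases h0 R hR hA with h4 | ⟨S, hS, h4⟩
    · exact h1 R hR h4 K Q T l (hle l (by omega))
    · rw [h4 K Q T] at hle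
      have hcard : S.card ≤ 3 := by
        have := Finset.card_le_univ S
        simpa using this
      have hpos : 0 < S.card := Finset.card_pos.2 hS
      rcases (show S.card = 1 ∨ S.card = 2 ∨ S.card = 3 by omega) with h5 | h5 | h5
      · obtain ⟨α₀, rfl⟩ := Finset.card_eq_one.1 h5
        obtain ⟨X, hX, h6⟩ := h2 α₀ K Q T l (hle l (by omega))
        exact ⟨X, hX, by rw [h4]; exact h6⟩
      · obtain ⟨α₀, α₁, hne, rfl⟩ := Finset.card_eq_two.1 h5
        obtain ⟨X, hX, h6⟩ := h3 α₀ α₁ hne K Q T l (hle _ (by omega))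
        exact ⟨X, hX, by rw [h4]; exact h6⟩
      · have h7 : S = univ := by
          apply Finset.eq_univ_of_card
          rw [h5]
          simp
        subst h7
        rw [ALL3_univ] at hle h4
        have hfin : (Set.range T).Finite := Set.finite_range T
        obtain ⟨X, hX, h6⟩ := hG K Q T m l hfin hm (hle _ (by omega))
        exact ⟨X, hX, by rw [h4]; exact h6⟩

end Pool.Agent.helper35.MR
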