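import Pool.Agent.helper35.MR.SpecA

set_option autoImplicit false

open Finset

namespace Pool.Agent.helper35.MR

open Pool.Agent.RRank

theorem KALL_neg (x y : ℤ) : cmp (-x) (-y) = (cmp x y).swap := by
  rcases lt_trichotomy x y with h | h | h
  · rw [(cmp_eq_lt_iff x y).2 h]
    exact (cmp_eq_gt_iff _ _).2 (by omega)
  · rw [(cmp_eq_eq_iff x y).2 h]
    exact (cmp_eq_eq_iff _ _).2 (by omega)
  · rw [(cmp_eq_gt_iff x y).2 h]
    exact (cmp_eq_lt_iff _ _).2 (by omega)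

theorem KALL_OTn {C : Type} {V : ℤ → ℤ → ℤ → C} (h : OT3 V) :
    OT3 (fun x y z => V (-x) (-y) (-z)) := by
  intro x y z x' y' z' h1 h2 h3
  exact h _ _ _ _ _ _ (by rw [KALL_neg, KALL_neg, h1]) (by rw [KALL_neg, KALL_neg, h2])
    (by rw [KALL_neg, KALL_neg, h3])

theorem KALL_OTs {C : Type} {V : ℤ → ℤ → ℤ → C} (h : OT3 V) : OT3 (fun x y z => V y x z) := by
  intro x y z x' y' z' h1 h2 h3
  exact h _ _ _ _ _ _ (by rw [← cmp_swap, ← cmp_swap x' y', h1]) h3 h2

theorem KALL_Kn {K : Type} [Field K] {V : ℤ → ℤ → ℤ → K} {a b c : Ordering → K} {κ : K}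
    (h : KForm V a b c κ) : KForm (fun x y z => V (-x) (-y) (-z))
      (fun o => a o.swap + (if o = .eq then κ else 0)) (fun o => b o.swap) (fun o => c o.swap)
      (-κ) := by
  intro x y z h1 h2
  show V (-x) (-y) (-z) = _
  rw [h (-x) (-y) (-z) (by omega) (by omega), KALL_neg, KALL_neg, KALL_neg]
  by_cases hxy : x = y
  · subst hxy
    rw [cmp_self_eq_eq]
    rcases lt_or_gt_of_ne h1 with h3 | h3
    · rw [if_pos ⟨rfl, by omega⟩, if_neg (by omega)]
      simp
      ring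
    · rw [if_neg (by omega), if_pos ⟨rfl, h3⟩]
      simp
      ring
  · rw [if_neg (by omega), if_neg (by tauto)]
    have : cmp x y ≠ .eq := by
      intro h4
      exact hxy ((cmp_eq_eq_iff x y).1 h4)
    simp only [if_neg this]
    ring

theorem KALL_Ks {K : Type} [Field K] {V : ℤ → ℤ → ℤ → K} {a b c : Ordering → K} {κ : K}
    (h : KForm V a b c κ) : KForm (fun x y z => V y x z) (fun o => a o.swap) c b κ := by
  intro x y z h1 h2
  show V y x z = _
  rw [h y x z h2 h1, ← cmp_swap x y]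
  by_cases hxy : x = y
  · subst hxy
    ring
  · rw [if_neg (by tauto), if_neg (by tauto)]
    ring

theorem KALL_two (hB1 : KB1_stmt) (hB2 : KB2_stmt) (hS : SYM_stmt) (K : Type) [Field K]
    (V : ℤ → ℤ → ℤ → K) (a b c : Ordering → K) (κ : K) (hO : OT3 V) (hK : KForm V a b c κ)
    (hκ : κ ≠ 0) (n : ℕ) (hn : 2 ≤ n) (hc : c .lt = c .gt) (hb : b .lt ≠ b .gt) :
    Good3 V (n + 1) := by
  by_cases h1 : V 1 0 2 ≠ 0
  · exact hB1 K V a b c κ hO hK hκ hc h1 n
  · by_cases h2 : V (-1) (-0) (-2) ≠ 0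
    · exact (hS K V (n + 1)).2.2 (hB1 K _ _ _ _ _ (KALL_OTn hO) (KALL_Kn hK) (neg_ne_zero.2 hκ)
        hc.symm h2 n)
    · have h3 : V 1 2 0 = V (-1) (-0) (-2) := hO _ _ _ _ _ _ (by decide) (by decide) (by decide)
      rw [not_not] at h1 h2
      exact hB2 K V a b c κ hO hK hκ hc hb h1 (h3.trans h2) n hn

theorem KALL (hA : KA_stmt) (hB1 : KB1_stmt) (hB2 : KB2_stmt) (hS : SYM_stmt) : KALL_stmt := by
  intro K _ V a b c κ hO hK hκ l hl
  obtain ⟨n, rfl⟩ : ∃ n, l = n + 1 := ⟨l - 1, by omega⟩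
  have hn : 2 ≤ n := by omega
  by_cases hb : b .lt = b .gt
  · by_cases hc : c .lt = c .gt
    · by_cases h1 : ∃ x₀ y₀ z₀ : ℤ, x₀ < z₀ ∧ y₀ < z₀ ∧ V x₀ y₀ z₀ ≠ 0
      · exact hA K V a b c κ hO hK hκ (Or.inr ⟨hb, hc⟩) h1 n
      · by_cases h2 : ∃ x₀ y₀ z₀ : ℤ, x₀ < z₀ ∧ y₀ < z₀ ∧ V (-x₀) (-y₀) (-z₀) ≠ 0
        · exact (hS K V (n + 1)).2.2 (hA K _ _ _ _ _ (KALL_OTn hO) (KALL_Kn hK)
            (neg_ne_zero.2 hκ) (Or.inr ⟨hb.symm, hc.symm⟩) h2 n)
        · exfalso
          push Not at h1 h2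
          have e1 := h1 0 0 1 (by norm_num) (by norm_num)
          have e2 := h2 0 0 1 (by norm_num) (by norm_num)
          rw [hK _ _ _ (by norm_num) (by norm_num)] at e1 e2
          have c1 : cmp (0 : ℤ) 0 = .eq := by decide
          have c2 : cmp (0 : ℤ) 1 = .lt := by decide
          have c3 : cmp (-0 : ℤ) (-0) = .eq := by decide
          have c4 : cmp (-0 : ℤ) (-1) = .gt := by decide
          rw [c1, c2, if_pos (by norm_num)] at e1
          rw [c3, c4, if_neg (by norm_num)] at e2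
          apply hκ
          rw [← hb, ← hc] at e2
          linear_combination e1 - e2
    · refine (hS K V (n + 1)).1 ?_
      exact KALL_two hB1 hB2 hS K _ _ _ _ κ (KALL_OTs hO) (KALL_Ks hK) hκ n hn hb hc
  · by_cases hc : c .lt = c .gt
    · exact KALL_two hB1 hB2 hS K V a b c κ hO hK hκ n hn hc hb
    · by_cases h1 : ∃ x₀ y₀ z₀ : ℤ, x₀ < z₀ ∧ y₀ < z₀ ∧ V x₀ y₀ z₀ ≠ 0
      · exact hA K V a b c κ hO hK hκ (Or.inl ⟨hb, hc⟩) h1 n
      · by_cases h2 : ∃ x₀ y₀ z₀ : ℤ, x₀ < z₀ ∧ y₀ < z₀ ∧ V (-x₀) (-y₀) (-z₀) ≠ 0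
        · exact (hS K V (n + 1)).2.2 (hA K _ _ _ _ _ (KALL_OTn hO) (KALL_Kn hK)
            (neg_ne_zero.2 hκ) (Or.inl ⟨fun h => hb h.symm, fun h => hc h.symm⟩) h2 n)
        · exfalso
          push Not at h1 h2
          have e1 := h1 0 0 1 (by norm_num) (by norm_num)
          have e2 := h2 0 0 1 (by norm_num) (by norm_num)
          have e3 := h1 0 1 2 (by norm_num) (by norm_num)
          have e4 := h2 1 0 2 (by norm_num) (by norm_num)
          rw [hK _ _ _ (by norm_num) (by norm_num)] at e1 e2 e3 e4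
          have c1 : cmp (0 : ℤ) 0 = .eq := by decide
          have c2 : cmp (0 : ℤ) 1 = .lt := by decide
          have c3 : cmp (-0 : ℤ) (-0) = .eq := by decide
          have c4 : cmp (-0 : ℤ) (-1) = .gt := by decide
          have c5 : cmp (1 : ℤ) 2 = .lt := by decide
          have c6 : cmp (0 : ℤ) 2 = .lt := by decide
          have c7 : cmp (-1 : ℤ) (-0) = .lt := by decide
          have c8 : cmp (-0 : ℤ) (-2) = .gt := by decide
          have c9 : cmp (-1 : ℤ) (-2) = .gt := by decide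
          rw [c1, c2, if_pos (by norm_num)] at e1
          rw [c3, c4, if_neg (by norm_num)] at e2
          rw [c2, c5, c6, if_neg (by norm_num)] at e3
          rw [c7, c8, c9, if_neg (by norm_num)] at e4
          apply hκ
          linear_combination e1 - e2 - (e3 - e4)

end Pool.Agent.helper35.MR
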